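import Pool.Agent.Q148.SuitDefs

set_option autoImplicit false

/-!
# Ladder subgroups of `ℤ^κ`

For a well-ordered index set `ι` of regular uncountable order type we study the subgroup `H ι` of
`ι → ℤ` generated by the unit vectors and by the indicator functions of a ladder system
(one cofinal `ω`-sequence for each index of cofinality `ω`).
-/

namespace Pool.Agent.Q148.Ladder

open Cardinal Set

/-- `ι` is well-ordered in a regular uncountable order type. -/
structure RegIdx (ι : Type) [LinearOrder ι] : Prop where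
  reg : (#ι).IsRegular
  unc : ℵ₀ < #ι
  init : ∀ i : ι, #(Set.Iio i) < #ι

variable {ι : Type} [LinearOrder ι]

section idx
variable (h : RegIdx ι)
include h

lemma mk_Iic_lt (i : ι) : #(Set.Iic i) < #ι := by
  have h1 : Set.Iic i = Set.Iio i ∪ {i} := by
    ext j
    simp only [mem_Iic, mem_union, mem_Iio, mem_singleton_iff]
    exact le_iff_lt_or_eq
  rw [h1]
  refine lt_of_le_of_lt (mk_union_le _ _) ?_
  refine add_lt_of_lt h.unc.le (h.init i) ?_
  rw [mk_singleton]
  exact lt_trans one_lt_aleph0 h.unc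

lemma exists_bd (s : Set ι) (hs : #s < #ι) : ∃ b, ∀ i ∈ s, i < b := by
  by_contra hc
  push Not at hc
  have huniv : (⋃ i ∈ s, Set.Iic i) = Set.univ := by
    ext b
    simp only [mem_iUnion, mem_Iic, exists_prop, mem_univ, iff_true]
    exact hc b
  have hlt := (card_biUnion_lt_iff_forall_of_isRegular h.reg hs
    (t := fun i _ => Set.Iic i)).2 (fun i _ => mk_Iic_lt h i)
  rw [huniv, mk_univ] at hlt
  exact lt_irrefl _ hlt

lemma exists_bd_of_countable (s : Set ι) (hs : s.Countable) : ∃ b, ∀ i ∈ s, i < b :=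
  exists_bd h s (lt_of_le_of_lt hs.le_aleph0 h.unc)

lemma exists_gt' (b : ι) : ∃ c, b < c := by
  obtain ⟨c, hc⟩ := exists_bd_of_countable h {b} (countable_singleton b)
  exact ⟨c, hc b rfl⟩

lemma nonempty_idx : Nonempty ι := by
  by_contra hc
  rw [not_nonempty_iff] at hc
  have h1 : #ι = 0 := mk_eq_zero ι
  have := h.unc
  rw [h1] at this
  exact absurd this (not_lt.2 (zero_le))

lemma union_lt {α : Type} {s t : Set α} (hs : #s < #ι) (ht : #t < #ι) : #(s ∪ t : Set α) < #ι :=
  lt_of_le_of_lt (mk_union_le _ _) (add_lt_of_lt h.unc.le hs ht)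

lemma iUnion_nat_lt {α : Type} {t : ℕ → Set α} (ht : ∀ n, #(t n) < #ι) : #(⋃ n, t n) < #ι := by
  exact (card_iUnion_lt_iff_forall_of_isRegular h.reg
    (lt_of_le_of_lt mk_le_aleph0 h.unc)).2 ht

end idx

/-- `δ` is the supremum of a strictly increasing `ω`-sequence. -/
def IsLim (δ : ι) : Prop := ∃ c : ℕ → ι, StrictMono c ∧ IsLUB (Set.range c) δ

lemma seq_lt {δ : ι} {c : ℕ → ι} (hc : StrictMono c) (hl : IsLUB (Set.range c) δ) (n : ℕ) :
    c n < δ := lt_of_lt_of_le (hc (Nat.lt_succ_self n)) (hl.1 ⟨n + 1, rfl⟩)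

lemma IsLim.exists_between {δ : ι} (hδ : IsLim δ) {b : ι} (hb : b < δ) : ∃ c, b < c ∧ c < δ := by
  obtain ⟨c, hc, hl⟩ := hδ
  by_contra hcon
  push Not at hcon
  have : δ ≤ b := by
    apply hl.2
    rintro _ ⟨n, rfl⟩
    by_contra hlt
    rw [not_le] at hlt
    exact absurd (seq_lt hc hl n) (not_lt.2 (hcon _ hlt))
  exact absurd hb (not_lt.2 this)

open Classical in
/-- The ladder at `δ`: the range of a chosen cofinal `ω`-sequence (empty if there is none). -/
noncomputable def lad (δ : ι) : Set ι :=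
  if h : IsLim δ then Set.range (Classical.choose h) else ∅

lemma lad_lt {δ i : ι} (hi : i ∈ lad δ) : i < δ := by
  unfold lad at hi
  split_ifs at hi with h
  · obtain ⟨n, rfl⟩ := hi
    exact seq_lt (Classical.choose_spec h).1 (Classical.choose_spec h).2 n
  · exact absurd hi (Set.notMem_empty i)

lemma lad_countable (δ : ι) : (lad δ).Countable := by
  unfold lad
  split_ifs with h
  · exact countable_range _
  · exact countable_empty

lemma lad_unbounded {δ : ι} (hδ : IsLim δ) {b : ι} (hb : b < δ) : ∃ i ∈ lad δ, b < i := by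
  unfold lad
  rw [dif_pos hδ]
  by_contra hcon
  push Not at hcon
  have hs := Classical.choose_spec hδ
  have : δ ≤ b := hs.2.2 (fun i hi => hcon i hi)
  exact absurd hb (not_lt.2 this)

lemma lad_inter_finite {δ b : ι} (hb : b < δ) : (lad δ ∩ Set.Iio b).Finite := by
  by_cases hδ : IsLim δ
  · obtain ⟨i, hi, hbi⟩ := lad_unbounded hδ hb
    unfold lad at hi ⊢
    rw [dif_pos hδ] at hi ⊢
    obtain ⟨n, rfl⟩ := hi
    have hs := (Classical.choose_spec hδ).1
    refine ((Set.finite_lt_nat n).image (Classical.choose hδ)).subset ?_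
    rintro _ ⟨⟨m, rfl⟩, hm⟩
    refine ⟨m, ?_, rfl⟩
    exact hs.lt_iff_lt.1 (lt_trans hm hbi)
  · unfold lad
    rw [dif_neg hδ]
    simp

/-- Closure points: above every index there is a limit of cofinality `ω` closed under `g`. -/
lemma exists_closed [WellFoundedLT ι] (h : RegIdx ι) (g : ι → ι) (a : ι) :
    ∃ δ, IsLim δ ∧ a < δ ∧ ∀ b < δ, ∃ c, b ≤ c ∧ c < δ ∧ g c < δ := by
  choose s hs using fun b => exists_gt' h b
  let c : ℕ → ι := fun n => Nat.rec a (fun _ x => s (max x (g x))) n
  have hc1 : ∀ n, c n < c (n + 1) := fun n => lt_of_le_of_lt (le_max_left _ _) (hs _)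
  have hc2 : ∀ n, g (c n) < c (n + 1) := fun n => lt_of_le_of_lt (le_max_right _ _) (hs _)
  have hmono : StrictMono c := strictMono_nat_of_lt_succ hc1
  have hne : (upperBounds (Set.range c)).Nonempty := by
    obtain ⟨b, hb⟩ := exists_bd_of_countable h (Set.range c) (countable_range c)
    exact ⟨b, fun i hi => (hb i hi).le⟩
  let δ := WellFounded.min (wellFounded_lt (α := ι)) (upperBounds (Set.range c)) hne
  have hδ : IsLUB (Set.range c) δ :=
    ⟨WellFounded.min_mem _ _ hne, fun b hb => not_lt.1 (WellFounded.not_lt_min _ _ hb)⟩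
  refine ⟨δ, ⟨c, hmono, hδ⟩, seq_lt hmono hδ 0, ?_⟩
  intro b hb
  have : ∃ n, b ≤ c n := by
    by_contra hcon
    push Not at hcon
    have : δ ≤ b := hδ.2 (by rintro _ ⟨n, rfl⟩; exact (hcon n).le)
    exact absurd hb (not_lt.2 this)
  obtain ⟨n, hn⟩ := this
  exact ⟨c n, hn, seq_lt hmono hδ n, lt_trans (hc2 n) (seq_lt hmono hδ (n + 1))⟩

/-- unit vector -/
noncomputable def ev (i : ι) : ι → ℤ := Pi.single i 1

/-- ladder vector: the indicator function of the ladder at `δ` -/
noncomputable def xv (δ : ι) : ι → ℤ := Set.indicator (lad δ) 1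

/-- The subgroup generated by the unit vectors and the ladder vectors. -/
noncomputable def Hs (ι : Type) [LinearOrder ι] : AddSubgroup (ι → ℤ) :=
  AddSubgroup.closure (Set.range (ev (ι := ι)) ∪ Set.range (xv (ι := ι)))

lemma ev_mem (i : ι) : ev i ∈ Hs ι := AddSubgroup.subset_closure (Or.inl ⟨i, rfl⟩)
lemma xv_mem (i : ι) : xv i ∈ Hs ι := AddSubgroup.subset_closure (Or.inr ⟨i, rfl⟩)

lemma ev_apply (i j : ι) : ev i j = if j = i then 1 else 0 := by
  unfold ev
  rw [Pi.single_apply]

lemma xv_ne_zero {δ j : ι} : xv δ j ≠ 0 ↔ j ∈ lad δ := by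
  classical
  unfold xv
  rw [Set.indicator_apply]
  split_ifs with h <;> simp [h]

/-- every element of `H` has countable support -/
lemma supp_countable {x : ι → ℤ} (hx : x ∈ Hs ι) : {i | x i ≠ 0}.Countable := by
  unfold Hs at hx
  induction hx using AddSubgroup.closure_induction with
  | mem x hx =>
    rcases hx with ⟨i, rfl⟩ | ⟨δ, rfl⟩
    · refine (countable_singleton i).mono ?_
      intro j hj
      simp only [mem_ofPred_eq, ev_apply] at hj
      by_contra hne
      rw [mem_singleton_iff] at hne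
      exact hj (if_neg hne)
    · refine (lad_countable δ).mono ?_
      intro j hj
      exact xv_ne_zero.1 hj
  | zero => simp
  | add x y _ _ hx hy =>
    refine (hx.union hy).mono ?_
    intro j hj
    by_contra hne
    simp only [mem_union, mem_ofPred_eq, not_or, not_not] at hne
    exact hj (by simp [hne.1, hne.2])
  | neg x _ hx =>
    refine hx.mono ?_
    intro j hj
    simpa using hj

/-- limit points of the support -/
def Nlim (x : ι → ℤ) : Set ι := {δ | IsLim δ ∧ ∀ b < δ, ∃ i, x i ≠ 0 ∧ b < i ∧ i < δ}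

lemma Nlim_finite {x : ι → ℤ} (hx : x ∈ Hs ι) : (Nlim x).Finite := by
  unfold Hs at hx
  induction hx using AddSubgroup.closure_induction with
  | mem x hx =>
    rcases hx with ⟨i, rfl⟩ | ⟨δ₀, rfl⟩
    · refine Set.finite_empty.subset ?_
      rintro δ ⟨hδ, hδ2⟩
      obtain ⟨c, hc, hl⟩ := hδ
      obtain ⟨i₁, h1, h2, h3⟩ := hδ2 (c 0) (seq_lt hc hl 0)
      have e1 : i₁ = i := by
        by_contra hne
        exact h1 (by rw [ev_apply, if_neg hne])
      subst e1
      obtain ⟨i₂, h4, h5, h6⟩ := hδ2 i₁ h3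
      have e2 : i₂ = i₁ := by
        by_contra hne
        exact h4 (by rw [ev_apply, if_neg hne])
      subst e2
      exact absurd h5 (lt_irrefl _)
    · refine (Set.finite_singleton δ₀).subset ?_
      rintro δ ⟨hδ, hδ2⟩
      rw [mem_singleton_iff]
      rcases lt_trichotomy δ δ₀ with hlt | heq | hgt
      · exfalso
        obtain ⟨c, hc, hl⟩ := hδ
        have hfin := lad_inter_finite hlt
        have hne : (lad δ₀ ∩ Set.Iio δ).Nonempty := by
          obtain ⟨i, h1, h2, h3⟩ := hδ2 (c 0) (seq_lt hc hl 0)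
          exact ⟨i, xv_ne_zero.1 h1, h3⟩
        obtain ⟨m, hm, hmax⟩ := hfin.exists_maximalFor id _ hne
        obtain ⟨i, h1, h2, h3⟩ := hδ2 m hm.2
        have := hmax (j := i) ⟨xv_ne_zero.1 h1, h3⟩ h2.le
        exact absurd h2 (not_lt.2 this)
      · exact heq
      · exfalso
        obtain ⟨i, h1, h2, h3⟩ := hδ2 δ₀ hgt
        exact absurd (lad_lt (xv_ne_zero.1 h1)) (not_lt.2 h2.le)
  | zero =>
    refine Set.finite_empty.subset ?_
    rintro δ ⟨⟨c, hc, hl⟩, hδ2⟩
    obtain ⟨i, h1, _⟩ := hδ2 (c 0) (seq_lt hc hl 0)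
    exact absurd rfl h1
  | add x y _ _ hx hy =>
    refine (hx.union hy).subset ?_
    rintro δ ⟨hδ, hδ2⟩
    by_contra hne
    simp only [mem_union, Nlim, mem_ofPred_eq, not_or, not_and, not_forall, not_exists] at hne
    obtain ⟨b₁, hb₁, h1⟩ := hne.1 hδ
    obtain ⟨b₂, hb₂, h2⟩ := hne.2 hδ
    obtain ⟨i, hi, hi1, hi2⟩ := hδ2 (max b₁ b₂) (max_lt hb₁ hb₂)
    apply hi
    have e1 : x i = 0 := by
      by_contra hx0
      exact h1 i hx0 (lt_of_le_of_lt (le_max_left _ _) hi1) hi2
    have e2 : y i = 0 := by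
      by_contra hx0
      exact h2 i hx0 (lt_of_le_of_lt (le_max_right _ _) hi1) hi2
    simp [e1, e2]
  | neg x _ hx =>
    refine hx.subset ?_
    rintro δ ⟨hδ, hδ2⟩
    refine ⟨hδ, fun b hb => ?_⟩
    obtain ⟨i, hi, hi1⟩ := hδ2 b hb
    exact ⟨i, by simpa using hi, hi1⟩

open Classical in
/-- truncation at `b` -/
noncomputable def tr (b : ι) : (ι → ℤ) →+ (ι → ℤ) where
  toFun x i := if i < b then x i else 0
  map_zero' := by ext i; simp
  map_add' x y := by ext i; by_cases hi : i < b <;> simp [hi]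

lemma tr_apply_lt {b i : ι} (hi : i < b) (x : ι → ℤ) : tr b x i = x i := by
  simp [tr, hi]

lemma tr_apply_ge {b i : ι} (hi : b ≤ i) (x : ι → ℤ) : tr b x i = 0 := by
  simp [tr, not_lt.2 hi]

/-- generators below `b` -/
noncomputable def Gs (b : ι) : Set (ι → ℤ) := ev '' Set.Iio b ∪ xv '' Set.Iic b

lemma tr_mem_closure (b : ι) {x : ι → ℤ} (hx : x ∈ Hs ι) :
    tr b x ∈ AddSubgroup.closure (Gs b) := by
  classical
  unfold Hs at hx
  induction hx using AddSubgroup.closure_induction with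
  | mem x hx =>
    rcases hx with ⟨i, rfl⟩ | ⟨δ, rfl⟩
    · by_cases hi : i < b
      · have : tr b (ev i) = ev i := by
          ext j
          by_cases hj : j < b
          · rw [tr_apply_lt hj]
          · rw [tr_apply_ge (not_lt.1 hj), ev_apply, if_neg]
            rintro rfl
            exact hj hi
        rw [this]
        exact AddSubgroup.subset_closure (Or.inl ⟨i, hi, rfl⟩)
      · have : tr b (ev i) = 0 := by
          ext j
          by_cases hj : j < b
          · rw [tr_apply_lt hj, ev_apply, if_neg]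
            · rfl
            · rintro rfl
              exact hi hj
          · rw [tr_apply_ge (not_lt.1 hj)]
            rfl
        rw [this]
        exact zero_mem _
    · by_cases hδ : δ ≤ b
      · have : tr b (xv δ) = xv δ := by
          ext j
          by_cases hj : j < b
          · rw [tr_apply_lt hj]
          · rw [tr_apply_ge (not_lt.1 hj)]
            by_contra hne
            have h1 : j ∈ lad δ := xv_ne_zero.1 (Ne.symm hne)
            exact hj (lt_of_lt_of_le (lad_lt h1) hδ)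
        rw [this]
        exact AddSubgroup.subset_closure (Or.inr ⟨δ, hδ, rfl⟩)
      · rw [not_le] at hδ
        have hfin := lad_inter_finite hδ
        have : tr b (xv δ) = ∑ i ∈ hfin.toFinset, ev i := by
          ext j
          rw [Finset.sum_apply]
          simp only [ev_apply]
          rw [Finset.sum_ite_eq]
          by_cases hj : j < b
          · rw [tr_apply_lt hj]
            unfold xv
            rw [Set.indicator_apply]
            by_cases hl : j ∈ lad δ <;> simp [hl, hj]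
          · rw [tr_apply_ge (not_lt.1 hj), if_neg]
            simp [hj]
        rw [this]
        refine AddSubgroup.sum_mem _ (fun i hi => ?_)
        rw [Set.Finite.mem_toFinset] at hi
        exact AddSubgroup.subset_closure (Or.inl ⟨i, hi.2, rfl⟩)
  | zero => rw [map_zero]; exact zero_mem _
  | add x y _ _ hx hy => rw [map_add]; exact add_mem hx hy
  | neg x _ hx => rw [map_neg]; exact neg_mem hx

lemma closure_Gs_le (b : ι) : AddSubgroup.closure (Gs b) ≤ Hs ι := by
  rw [AddSubgroup.closure_le]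
  rintro x (⟨i, _, rfl⟩ | ⟨δ, _, rfl⟩)
  · exact ev_mem i
  · exact xv_mem δ

lemma tr_mem (b : ι) {x : ι → ℤ} (hx : x ∈ Hs ι) : tr b x ∈ Hs ι :=
  closure_Gs_le b (tr_mem_closure b hx)

lemma mk_closure_lt (h : RegIdx ι) {s : Set (ι → ℤ)} (hs : #s < #ι) :
    #(AddSubgroup.closure s) < #ι := by
  let f : FreeAddGroup s →+ (ι → ℤ) := FreeAddGroup.lift (fun x => (x : ι → ℤ))
  have hr : AddSubgroup.closure s ≤ f.range := by
    rw [AddSubgroup.closure_le]
    intro x hx
    exact ⟨FreeAddGroup.of ⟨x, hx⟩, by simp [f]⟩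
  have h1 : #(AddSubgroup.closure s) ≤ #(FreeAddGroup s) := by
    refine le_trans (mk_le_mk_of_subset (s := (AddSubgroup.closure s : Set (ι → ℤ)))
      (t := (f.range : Set (ι → ℤ))) hr) ?_
    rw [AddMonoidHom.coe_range]
    exact mk_range_le
  have h2 : #(FreeAddGroup s) ≤ #(List (s × Bool)) :=
    mk_le_of_surjective (f := FreeAddGroup.mk) (by
      intro x
      exact Quot.exists_rep x)
  refine lt_of_le_of_lt (h1.trans (h2.trans (mk_list_le_max _))) ?_
  refine max_lt h.unc ?_
  rw [mk_prod, lift_id, lift_id]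
  exact mul_lt_of_lt h.unc.le hs (lt_trans (lt_of_le_of_lt mk_bool.le (by exact_mod_cast natCast_lt_aleph0 (n := 2))) h.unc)

/-- elements of `H` supported strictly below `b` -/
def HB (b : ι) : Set (ι → ℤ) := {x | x ∈ Hs ι ∧ ∀ i, b ≤ i → x i = 0}

lemma mk_HB_lt (h : RegIdx ι) (b : ι) : #(HB b) < #ι := by
  have hsub : HB b ⊆ (AddSubgroup.closure (Gs b) : Set (ι → ℤ)) := by
    rintro x ⟨hx, hx2⟩
    have : tr b x = x := by
      ext j
      by_cases hj : j < b
      · rw [tr_apply_lt hj]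
      · rw [tr_apply_ge (not_lt.1 hj), hx2 j (not_lt.1 hj)]
    rw [← this]
    exact tr_mem_closure b hx
  refine lt_of_le_of_lt (mk_le_mk_of_subset hsub) ?_
  apply mk_closure_lt h
  unfold Gs
  refine union_lt h ?_ ?_
  · exact lt_of_le_of_lt mk_image_le (h.init b)
  · exact lt_of_le_of_lt mk_image_le (mk_Iic_lt h b)

/-- **Accumulation**: every subset of `H` of full size has a complete accumulation point in `H`. -/
theorem exists_acc [WellFoundedLT ι] (h : RegIdx ι) (D : Set (ι → ℤ)) (hD : D ⊆ Hs ι)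
    (hcard : ¬ #D < #ι) :
    ∃ b ∈ Hs ι, ∀ a : ι, ¬ #({x | x ∈ D ∧ ∀ i < a, x i = b i} : Set (ι → ℤ)) < #ι := by
  by_contra hcon
  push Not at hcon
  have := nonempty_idx h
  choose! al hal using hcon
  -- bounding function
  have hg : ∀ b : ι, ∃ c, ∀ x ∈ HB b, al x < c := by
    intro b
    obtain ⟨c, hc⟩ := exists_bd h (al '' HB b) (lt_of_le_of_lt mk_image_le (mk_HB_lt h b))
    exact ⟨c, fun x hx => hc _ ⟨x, hx, rfl⟩⟩
  choose g hg using hg
  have key : ∀ δ, IsLim δ → (∀ b < δ, ∃ c, b ≤ c ∧ c < δ ∧ g c < δ) →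
      #({x | x ∈ D ∧ δ ∉ Nlim x} : Set (ι → ℤ)) < #ι := by
    intro δ hδ hcl
    have hsub : ({x | x ∈ D ∧ δ ∉ Nlim x} : Set (ι → ℤ)) ⊆
        ⋃ b ∈ HB δ, {x | x ∈ D ∧ ∀ i < al b, x i = b i} := by
      rintro x ⟨hxD, hx⟩
      simp only [Nlim, mem_ofPred_eq, not_and, not_forall, not_exists] at hx
      obtain ⟨b, hb, hb2⟩ := hx hδ
      obtain ⟨b', hb'1, hb'2⟩ := hδ.exists_between hb
      obtain ⟨c, hc1, hc2, hc3⟩ := hcl b' hb'2
      have hmem : tr δ x ∈ HB c := by
        refine ⟨tr_mem δ (hD hxD), fun i hi => ?_⟩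
        by_cases hiδ : i < δ
        · rw [tr_apply_lt hiδ]
          by_contra hne
          exact hb2 i hne (lt_of_lt_of_le hb'1 (hc1.trans hi)) hiδ
        · exact tr_apply_ge (not_lt.1 hiδ) x
      have hmem' : tr δ x ∈ HB δ := ⟨hmem.1, fun i hi => hmem.2 i (hc2.le.trans hi)⟩
      have hal2 : al (tr δ x) < δ := lt_trans (hg c _ hmem) hc3
      simp only [mem_iUnion]
      refine ⟨tr δ x, hmem', hxD, fun i hi => ?_⟩
      rw [tr_apply_lt (lt_trans hi hal2)]
    refine lt_of_le_of_lt (mk_le_mk_of_subset hsub) ?_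
    have hlt : #(HB δ) < #ι := mk_HB_lt h δ
    exact (card_biUnion_lt_iff_forall_of_isRegular h.reg hlt
      (t := fun b _ => {x | x ∈ D ∧ ∀ i < al b, x i = b i})).2 (fun b hb => hal b hb.1)
  choose nx hnx1 hnx2 hnx3 using fun a => exists_closed h g a
  let a₀ : ι := Classical.choice (nonempty_idx h)
  let c : ℕ → ι := fun n => Nat.rec (nx a₀) (fun _ x => nx x) n
  have hc1 : ∀ n, c n < c (n + 1) := fun n => hnx2 _
  have hmono : StrictMono c := strictMono_nat_of_lt_succ hc1
  have hcc : ∀ n, ∃ a, c n = nx a := by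
    intro n
    cases n with
    | zero => exact ⟨a₀, rfl⟩
    | succ n => exact ⟨c n, rfl⟩
  have hsmall : #(⋃ n, {x | x ∈ D ∧ c n ∉ Nlim x} : Set (ι → ℤ)) < #ι := by
    refine iUnion_nat_lt h (fun n => ?_)
    obtain ⟨a, ha⟩ := hcc n
    rw [ha]
    exact key _ (hnx1 a) (hnx3 a)
  have hex : ∃ x ∈ D, x ∉ (⋃ n, {x | x ∈ D ∧ c n ∉ Nlim x} : Set (ι → ℤ)) := by
    by_contra hno
    push Not at hno
    exact hcard (lt_of_le_of_lt (mk_le_mk_of_subset hno) hsmall)
  obtain ⟨x, hxD, hx⟩ := hex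
  simp only [mem_iUnion, mem_ofPred_eq, not_exists, not_and, not_not] at hx
  have hinf : (Nlim x).Infinite :=
    Set.infinite_of_injective_forall_mem hmono.injective (fun n => hx n hxD)
  exact hinf (Nlim_finite (hD hxD))

/-- The ladder group, as a bare abelian group (no topology attached). -/
def LG (ι : Type) [LinearOrder ι] : Type := ↥(Hs ι)

noncomputable instance : AddCommGroup (LG ι) := inferInstanceAs (AddCommGroup ↥(Hs ι))

/-- the inclusion of the ladder group in `ι → ℤ` -/
noncomputable def LG.val : LG ι →+ (ι → ℤ) := (Hs ι).subtype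

lemma LG.val_injective : Function.Injective (LG.val (ι := ι)) := Subtype.val_injective

lemma LG.val_mem (x : LG ι) : LG.val x ∈ Hs ι := Subtype.property (p := (· ∈ Hs ι)) x

lemma LG.exists_val {x : ι → ℤ} (hx : x ∈ Hs ι) : ∃ y : LG ι, LG.val y = x := ⟨⟨x, hx⟩, rfl⟩

/-- **Main theorem**: with the group topology whose basic neighbourhoods of zero are the subgroups
of elements vanishing below an index, the ladder group has no suitable set. -/
theorem no_suitable [WellFoundedLT ι] (h : RegIdx ι) [TopologicalSpace (LG ι)]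
    [IsTopologicalAddGroup (LG ι)]
    (hb : (nhds (0 : LG ι)).HasBasis (fun _ : ι => True) (fun a => {x | ∀ i < a, LG.val x i = 0}))
    (S : Set (LG ι)) : ¬ IsSuitable S := by
  rintro ⟨hdisc, hclosed, hdense⟩
  have hbx : ∀ x : LG ι, (nhds x).HasBasis (fun _ : ι => True)
      (fun a => {y | ∀ i < a, LG.val y i = LG.val x i}) := by
    intro x
    have h1 := hb.comap (fun y => y - x)
    rw [nhds_translation_sub] at h1
    convert h1 using 2 with a
    ext y
    simp only [mem_ofPred_eq, mem_preimage, map_sub, Pi.sub_apply]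
    exact forall₂_congr (fun i _ => sub_eq_zero.symm)
  -- the part of `S` outside a basic subgroup is small
  have hT : ∀ a : ι, #({s | s ∈ S ∧ ∃ i < a, LG.val s i ≠ 0} : Set (LG ι)) < #ι := by
    intro a
    by_contra hcard
    set T : Set (LG ι) := {s | s ∈ S ∧ ∃ i < a, LG.val s i ≠ 0} with hTdef
    have hcard' : ¬ #(LG.val '' T) < #ι := by
      rwa [mk_image_eq LG.val_injective]
    obtain ⟨b, hbH, hbacc⟩ := exists_acc h (LG.val '' T)
      (by rintro _ ⟨s, _, rfl⟩; exact LG.val_mem s) hcard'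
    obtain ⟨b', rfl⟩ := LG.exists_val hbH
    have hacc : ∀ a' : ι, ∃ s ∈ T, s ≠ b' ∧ ∀ i < a', LG.val s i = LG.val b' i := by
      intro a'
      by_contra hno
      push Not at hno
      apply hbacc a'
      refine lt_of_le_of_lt (mk_le_mk_of_subset (t := {LG.val b'}) ?_) ?_
      · rintro _ ⟨⟨s, hs, rfl⟩, hag⟩
        rw [mem_singleton_iff]
        by_contra hne
        obtain ⟨i, hi, hi2⟩ := hno s hs (fun he => hne (by rw [he]))
        exact hi2 (hag i hi)
      · rw [mk_singleton]
        exact lt_trans one_lt_aleph0 h.unc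
    have hmemcl : b' ∈ closure (S ∪ {0}) := by
      rw [mem_closure_iff_nhds_basis (hbx b')]
      intro a' _
      obtain ⟨s, hs, _, hag⟩ := hacc a'
      exact ⟨s, Or.inl hs.1, hag⟩
    rw [hclosed.closure_eq] at hmemcl
    have hb'S : b' ∈ S := by
      rcases hmemcl with h1 | h1
      · exact h1
      · exfalso
        rw [mem_singleton_iff] at h1
        subst h1
        obtain ⟨s, hs, _, hag⟩ := hacc a
        obtain ⟨i, hi, hi2⟩ := hs.2
        exact hi2 (by rw [hag i hi, map_zero]; rfl)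
    rw [discreteTopology_subtype_iff] at hdisc
    have h1 := hdisc b' hb'S
    rw [← disjoint_iff, Filter.disjoint_principal_right, mem_nhdsWithin_iff_eventually,
      (hbx b').eventually_iff] at h1
    obtain ⟨a', _, ha'⟩ := h1
    obtain ⟨s, hs, hne, hag⟩ := hacc a'
    exact ha' hag hne hs.1
  -- bounds for the supports
  have hsup : ∀ a : ι, ∃ c : ι, ∀ s ∈ S, (∃ i < a, LG.val s i ≠ 0) →
      ∀ i, LG.val s i ≠ 0 → i < c := by
    intro a
    choose β hβ using fun s : LG ι =>
      exists_bd_of_countable h _ (supp_countable (LG.val_mem s))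
    obtain ⟨c, hc⟩ := exists_bd h (β '' {s | s ∈ S ∧ ∃ i < a, LG.val s i ≠ 0})
      (lt_of_le_of_lt mk_image_le (hT a))
    exact ⟨c, fun s hs hs2 i hi => lt_trans (hβ s i hi) (hc _ ⟨s, ⟨hs, hs2⟩, rfl⟩)⟩
  choose g hg using hsup
  have a₀ : ι := Classical.choice (nonempty_idx h)
  obtain ⟨δ, hδ, ha₀, hcl⟩ := exists_closed h g a₀
  have hbdd : ∀ x ∈ AddSubgroup.closure S, ∃ β < δ, ∀ i, β < i → i < δ → LG.val x i = 0 := by
    intro x hx
    induction hx using AddSubgroup.closure_induction with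
    | mem s hs =>
      by_cases hz : ∀ i < δ, LG.val s i = 0
      · exact ⟨a₀, ha₀, fun i _ hi => hz i hi⟩
      · push Not at hz
        obtain ⟨i, hi, hi2⟩ := hz
        obtain ⟨j, hj1, hj2⟩ := hδ.exists_between hi
        obtain ⟨c, hc1, hc2, hc3⟩ := hcl j hj2
        refine ⟨g c, hc3, fun k hk1 _ => ?_⟩
        by_contra hne
        exact absurd (hg c s hs ⟨i, lt_of_lt_of_le hj1 hc1, hi2⟩ k hne) (not_lt.2 hk1.le)
    | zero => exact ⟨a₀, ha₀, fun i _ _ => by rw [map_zero]; rfl⟩
    | add x y _ _ hx hy =>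
      obtain ⟨β₁, h1, h2⟩ := hx
      obtain ⟨β₂, h3, h4⟩ := hy
      refine ⟨max β₁ β₂, max_lt h1 h3, fun i hi1 hi2 => ?_⟩
      rw [map_add, Pi.add_apply, h2 i (lt_of_le_of_lt (le_max_left _ _) hi1) hi2,
        h4 i (lt_of_le_of_lt (le_max_right _ _) hi1) hi2, add_zero]
    | neg x _ hx =>
      obtain ⟨β₁, h1, h2⟩ := hx
      refine ⟨β₁, h1, fun i hi1 hi2 => ?_⟩
      rw [map_neg, Pi.neg_apply, h2 i hi1 hi2, neg_zero]
  obtain ⟨xd, hxd⟩ := LG.exists_val (xv_mem δ)
  have hmem : xd ∈ closure (AddSubgroup.closure S : Set (LG ι)) := hdense xd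
  rw [mem_closure_iff_nhds_basis (hbx xd)] at hmem
  obtain ⟨y, hy1, hy2⟩ := hmem δ trivial
  obtain ⟨β, hβ1, hβ2⟩ := hbdd y hy1
  obtain ⟨i, hi1, hi2⟩ := lad_unbounded hδ hβ1
  have h1 := hβ2 i hi2 (lad_lt hi1)
  rw [hy2 i (lad_lt hi1), hxd] at h1
  exact xv_ne_zero.2 hi1 h1

end Pool.Agent.Q148.Ladder
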