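import Pool.Agent.Q148.LadderOrder

set_option autoImplicit false

/-!
# Two index sets: `ω₁` and the bounding number
-/

namespace Pool.Agent.Q148.Ladder

open Cardinal Set

lemma regIdx_toType (κ : Cardinal.{0}) (hκ : κ.IsRegular) (h0 : ℵ₀ < κ) :
    RegIdx κ.ord.ToType where
  reg := by rwa [mk_toType, card_ord]
  unc := by rwa [mk_toType, card_ord]
  init i := by
    rw [mk_toType κ.ord, card_ord]
    exact mk_Iio_toType_ord_lt i

lemma regIdx_W1 : RegIdx W1 := regIdx_toType ℵ₁ isRegular_aleph_one aleph0_lt_aleph_one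

/-- eventual domination -/
def EvLe (f g : ℕ → ℕ) : Prop := ∀ᶠ n in Filter.atTop, f n ≤ g n

lemma EvLe.trans {f g h : ℕ → ℕ} (h1 : EvLe f g) (h2 : EvLe g h) : EvLe f h := by
  filter_upwards [h1, h2] with n hn1 hn2 using hn1.trans hn2

/-- unbounded family for eventual domination -/
def Unb (F : Set (ℕ → ℕ)) : Prop := ∀ g, ∃ f ∈ F, ¬ EvLe f g

lemma unb_univ : Unb (Set.univ : Set (ℕ → ℕ)) := by
  intro g
  refine ⟨fun n => g n + 1, trivial, fun h => ?_⟩
  obtain ⟨N, hN⟩ := Filter.eventually_atTop.1 h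
  exact absurd (hN N le_rfl) (by simp)

lemma not_unb_countable {F : Set (ℕ → ℕ)} (hF : F.Countable) : ¬ Unb F := by
  intro hU
  by_cases hne : F.Nonempty
  · obtain ⟨e, he⟩ := hF.exists_eq_range hne
    obtain ⟨f, hf, hf2⟩ := hU (fun n => ∑ k ∈ Finset.range (n + 1), e k n)
    rw [he] at hf
    obtain ⟨k, rfl⟩ := hf
    apply hf2
    refine Filter.eventually_atTop.2 ⟨k, fun n hn => ?_⟩
    exact Finset.single_le_sum (f := fun k => e k n) (fun _ _ => Nat.zero_le _)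
      (Finset.mem_range.2 (Nat.lt_succ_of_le hn))
  · rw [Set.not_nonempty_iff_eq_empty] at hne
    subst hne
    obtain ⟨f, hf, _⟩ := hU (fun _ => 0)
    exact hf

/-- The bounding number. -/
noncomputable def bb : Cardinal.{0} := sInf {c | ∃ F : Set (ℕ → ℕ), Unb F ∧ #F = c}

lemma bb_spec : ∃ F : Set (ℕ → ℕ), Unb F ∧ #F = bb :=
  csInf_mem (s := {c | ∃ F : Set (ℕ → ℕ), Unb F ∧ #F = c}) ⟨_, _, unb_univ, rfl⟩

lemma not_unb_of_lt {F : Set (ℕ → ℕ)} (hF : #F < bb) : ∃ g, ∀ f ∈ F, EvLe f g := by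
  have : ¬ Unb F := by
    intro hU
    exact absurd (csInf_le' (s := {c | ∃ F : Set (ℕ → ℕ), Unb F ∧ #F = c}) ⟨F, hU, rfl⟩)
      (not_le.2 hF)
  unfold Unb at this
  push Not at this
  exact this

lemma aleph0_lt_bb : ℵ₀ < bb := by
  obtain ⟨F, hF, hF2⟩ := bb_spec
  rw [← hF2]
  by_contra h
  rw [not_lt, mk_le_aleph0_iff] at h
  exact not_unb_countable h hF

/-- the index set of order type the bounding number -/
abbrev Wb : Type := bb.ord.ToType

/-- There is an increasing unbounded family indexed by the bounding number. -/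
lemma exists_scale : ∃ g : Wb → (ℕ → ℕ), (∀ i j, i < j → EvLe (g i) (g j)) ∧
    ∀ f, ∃ i, ¬ EvLe (g i) f := by
  obtain ⟨F, hF, hF2⟩ := bb_spec
  have hcard : #Wb = #F := by rw [mk_toType, card_ord, hF2]
  obtain ⟨e⟩ := Cardinal.eq.1 hcard
  have hstep : ∀ (i : Wb) (p : ∀ j, j < i → (ℕ → ℕ)),
      ∃ g, (∀ j (hj : j < i), EvLe (p j hj) g) ∧ EvLe (e i : ℕ → ℕ) g := by
    intro i p
    have hlt : #((Set.range (fun j : Set.Iio i => p j.1 j.2) ∪ {(e i : ℕ → ℕ)} : Set (ℕ → ℕ)))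
        < bb := by
      refine lt_of_le_of_lt (mk_union_le _ _) ?_
      refine add_lt_of_lt aleph0_lt_bb.le ?_ ?_
      · exact lt_of_le_of_lt mk_range_le (mk_Iio_toType_ord_lt i)
      · rw [mk_singleton]
        exact lt_trans one_lt_aleph0 aleph0_lt_bb
    obtain ⟨g, hg⟩ := not_unb_of_lt hlt
    exact ⟨g, fun j hj => hg _ (Or.inl ⟨⟨j, hj⟩, rfl⟩), hg _ (Or.inr rfl)⟩
  choose G hG1 hG2 using hstep
  let g : Wb → (ℕ → ℕ) := (wellFounded_lt (α := Wb)).fix (fun i p => G i p)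
  have hg : ∀ i, g i = G i (fun j _ => g j) := fun i =>
    (wellFounded_lt (α := Wb)).fix_eq (fun i p => G i p) i
  refine ⟨g, ?_, ?_⟩
  · intro i j hij
    rw [hg j]
    exact hG1 j (fun k _ => g k) i hij
  · intro f
    obtain ⟨f', hf', hf'2⟩ := hF f
    refine ⟨e.symm ⟨f', hf'⟩, fun hle => hf'2 ?_⟩
    refine EvLe.trans ?_ hle
    have := hG2 (e.symm ⟨f', hf'⟩) (fun j _ => g j)
    rw [← hg, Equiv.apply_symm_apply] at this
    exact this

lemma bb_regular : bb.IsRegular := by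
  refine ⟨aleph0_lt_bb.le, ?_⟩
  rw [← Ordinal.cof_toType, Order.le_cof_iff]
  intro s hs
  obtain ⟨g, hg1, hg2⟩ := exists_scale
  have hunb : Unb (g '' s) := by
    intro f
    obtain ⟨i, hi⟩ := hg2 f
    obtain ⟨j, hj, hij⟩ := hs i
    refine ⟨g j, ⟨j, hj, rfl⟩, fun hle => hi ?_⟩
    rcases hij.lt_or_eq with h | h
    · exact (hg1 i j h).trans hle
    · rw [h]; exact hle
  exact le_trans (csInf_le' ⟨g '' s, hunb, rfl⟩) mk_image_le

lemma regIdx_Wb : RegIdx Wb := regIdx_toType bb bb_regular aleph0_lt_bb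

/-- A monotone cofinal map from `ω^ω` onto a cofinal part of the bounding number. -/
lemma exists_monotone_cofinal : ∃ φ : (ℕ → ℕ) → Wb, Monotone φ ∧ ∀ i, ∃ f, i ≤ φ f := by
  obtain ⟨g, hg1, hg2⟩ := exists_scale
  have hg3 : ∀ i j, i ≤ j → EvLe (g i) (g j) := by
    intro i j hij
    rcases hij.lt_or_eq with h | h
    · exact hg1 i j h
    · rw [h]; exact Filter.Eventually.of_forall (fun _ => le_rfl)
  let φ : (ℕ → ℕ) → Wb := fun f => WellFounded.min (wellFounded_lt (α := Wb))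
    {i | ¬ EvLe (g i) f} (hg2 f)
  have hφ1 : ∀ f, ¬ EvLe (g (φ f)) f := fun f => WellFounded.min_mem _ _ (hg2 f)
  have hφ2 : ∀ f i, i < φ f → EvLe (g i) f := by
    intro f i hi
    by_contra hcon
    exact WellFounded.not_lt_min (wellFounded_lt (α := Wb)) {i | ¬ EvLe (g i) f} hcon hi
  refine ⟨φ, ?_, ?_⟩
  · intro f f' hff'
    by_contra hlt
    rw [not_le] at hlt
    refine hφ1 f' ?_
    exact (hφ2 f _ hlt).trans (Filter.Eventually.of_forall hff')
  · intro i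
    refine ⟨g i, ?_⟩
    by_contra hlt
    rw [not_le] at hlt
    exact hφ1 (g i) (hg3 _ _ hlt.le)

lemma omegaBase_LO : HasOmegaBase (LO Wb) := by
  intro x
  obtain ⟨φ, hφ1, hφ2⟩ := exists_monotone_cofinal
  refine ⟨fun f => {y | ∀ i < φ f, LO.val y i = LO.val x i}, ?_, ?_⟩
  · intro f f' hff' y hy i hi
    exact hy i (lt_of_lt_of_le hi (hφ1 hff'))
  · refine (LO.basis regIdx_Wb x).to_hasBasis ?_ ?_
    · intro a _
      obtain ⟨f, hf⟩ := hφ2 a
      exact ⟨f, trivial, fun y hy i hi => hy i (lt_of_lt_of_le hi hf)⟩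
    · intro f _
      exact ⟨φ f, trivial, fun y hy => hy⟩

end Pool.Agent.Q148.Ladder
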