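import Pool.Agent.Q148.Ladder

set_option autoImplicit false

/-!
# The ladder group as a linearly ordered topological group
-/

namespace Pool.Agent.Q148.Ladder

open Cardinal Set

variable {ι : Type} [LinearOrder ι]

/-- The ladder group with its lexicographic order and the order topology. -/
def LO (ι : Type) [LinearOrder ι] : Type := LG ι

noncomputable instance : AddCommGroup (LO ι) := inferInstanceAs (AddCommGroup (LG ι))

/-- the inclusion of the ladder group in `ι → ℤ` -/
noncomputable def LO.val : LO ι →+ (ι → ℤ) := LG.val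

lemma LO.val_injective : Function.Injective (LO.val (ι := ι)) := LG.val_injective

variable [WellFoundedLT ι]

noncomputable instance : LinearOrder (LO ι) :=
  LinearOrder.lift' (fun x : LO ι => toLex (LO.val x))
    (fun _ _ hxy => LO.val_injective (toLex.injective hxy))

lemma LO.lt_iff {x y : LO ι} :
    x < y ↔ ∃ i, (∀ j < i, LO.val x j = LO.val y j) ∧ LO.val x i < LO.val y i := Iff.rfl

instance : IsOrderedAddMonoid (LO ι) where
  add_le_add_left x y hxy z := by
    rcases hxy.lt_or_eq with h | h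
    · refine le_of_lt ?_
      obtain ⟨i, h1, h2⟩ := LO.lt_iff.1 h
      refine LO.lt_iff.2 ⟨i, fun j hj => ?_, ?_⟩
      · rw [map_add, map_add, Pi.add_apply, Pi.add_apply, h1 j hj]
      · rw [map_add, map_add, Pi.add_apply, Pi.add_apply]
        exact add_lt_add_left h2 _
    · rw [h]

noncomputable instance : TopologicalSpace (LO ι) := Preorder.topology (LO ι)

instance : OrderTopology (LO ι) := ⟨rfl⟩

omit [WellFoundedLT ι] in
lemma LO.exists_ev (i : ι) : ∃ x : LO ι, LO.val x = ev i := LG.exists_val (ev_mem i)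

lemma LO.basis_zero (h : RegIdx ι) : (nhds (0 : LO ι)).HasBasis (fun _ : ι => True)
    (fun a => {x | ∀ i < a, LO.val x i = 0}) := by
  have key : ∀ a : ι, ∀ e : LO ι, LO.val e = ev a → -e < 0 ∧ 0 < e ∧
      ∀ x : LO ι, -e < x → x < e → ∀ i < a, LO.val x i = 0 := by
    intro a e he
    have hpos : 0 < e := by
      refine LO.lt_iff.2 ⟨a, fun j hj => ?_, ?_⟩
      · rw [he, map_zero, ev_apply, if_neg hj.ne]
        rfl
      · rw [he, map_zero, ev_apply, if_pos rfl]
        exact one_pos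
    refine ⟨neg_lt_zero.2 hpos, hpos, ?_⟩
    intro x hx1 hx2 i hi
    by_contra hne
    let s : Set ι := {k | LO.val x k ≠ 0}
    have hs : s.Nonempty := ⟨i, hne⟩
    let m := WellFounded.min (wellFounded_lt (α := ι)) s hs
    have hm : LO.val x m ≠ 0 := WellFounded.min_mem _ _ hs
    have hm2 : ∀ k < m, LO.val x k = 0 := by
      intro k hk
      by_contra hk2
      exact WellFounded.not_lt_min (wellFounded_lt (α := ι)) s hk2 hk
    have hma : m < a := lt_of_le_of_lt (not_lt.1 (WellFounded.not_lt_min _ s hne)) hi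
    rcases lt_or_gt_of_ne hm with hlt | hgt
    · refine absurd hx1 (not_lt.2 (le_of_lt (LO.lt_iff.2 ⟨m, fun j hj => ?_, ?_⟩)))
      · rw [map_neg, Pi.neg_apply, he, ev_apply, if_neg (hj.trans hma).ne, hm2 j hj]
        rfl
      · rw [map_neg, Pi.neg_apply, he, ev_apply, if_neg hma.ne]
        simpa using hlt
    · refine absurd hx2 (not_lt.2 (le_of_lt (LO.lt_iff.2 ⟨m, fun j hj => ?_, ?_⟩)))
      · rw [he, ev_apply, if_neg (hj.trans hma).ne, hm2 j hj]
      · rw [he, ev_apply, if_neg hma.ne]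
        exact hgt
  choose ee hee using fun a : ι => LO.exists_ev a
  have hne := nonempty_idx h
  let a₀ : ι := Classical.choice hne
  have hk0 := key a₀ (ee a₀) (hee a₀)
  refine (nhds_basis_Ioo' ⟨-ee a₀, hk0.1⟩ ⟨ee a₀, hk0.2.1⟩).to_hasBasis ?_ ?_
  · rintro ⟨l, u⟩ ⟨hl, hu⟩
    obtain ⟨i, h1, h2⟩ := LO.lt_iff.1 hl
    obtain ⟨j, h3, h4⟩ := LO.lt_iff.1 hu
    obtain ⟨a, ha⟩ := exists_gt' h (max i j)
    refine ⟨a, trivial, fun x hx => ⟨?_, ?_⟩⟩
    · refine LO.lt_iff.2 ⟨i, fun k hk => ?_, ?_⟩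
      · rw [h1 k hk, hx k (lt_trans hk (lt_of_le_of_lt (le_max_left _ _) ha)), map_zero]
        rfl
      · rw [hx i (lt_of_le_of_lt (le_max_left _ _) ha)]
        simpa using h2
    · refine LO.lt_iff.2 ⟨j, fun k hk => ?_, ?_⟩
      · rw [← h3 k hk, hx k (lt_trans hk (lt_of_le_of_lt (le_max_right _ _) ha)), map_zero]
        rfl
      · rw [hx j (lt_of_le_of_lt (le_max_right _ _) ha)]
        simpa using h4
  · intro a _
    have hk := key a (ee a) (hee a)
    exact ⟨(-ee a, ee a), ⟨hk.1, hk.2.1⟩, fun x hx => hk.2.2 x hx.1 hx.2⟩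

lemma LO.basis (h : RegIdx ι) (x : LO ι) : (nhds x).HasBasis (fun _ : ι => True)
    (fun a => {y | ∀ i < a, LO.val y i = LO.val x i}) := by
  have h1 := (LO.basis_zero h).comap (fun y => y - x)
  rw [nhds_translation_sub] at h1
  convert h1 using 2 with a
  ext y
  simp only [mem_ofPred_eq, mem_preimage, map_sub, Pi.sub_apply]
  exact forall₂_congr (fun i _ => sub_eq_zero.symm)

lemma LO.isOpen_coset (h : RegIdx ι) (x : LO ι) (a : ι) :
    IsOpen {y : LO ι | ∀ i < a, LO.val y i = LO.val x i} := by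
  rw [isOpen_iff_mem_nhds]
  intro y hy
  refine (LO.basis h y).mem_iff.2 ⟨a, trivial, fun z hz i hi => ?_⟩
  rw [hz i hi, hy i hi]

lemma LO.isClopen_coset (h : RegIdx ι) (x : LO ι) (a : ι) :
    IsClopen {y : LO ι | ∀ i < a, LO.val y i = LO.val x i} := by
  refine ⟨?_, LO.isOpen_coset h x a⟩
  rw [← isOpen_compl_iff, isOpen_iff_mem_nhds]
  intro y hy
  refine (LO.basis h y).mem_iff.2 ⟨a, trivial, fun z hz hz2 => hy ?_⟩
  intro i hi
  rw [← hz i hi, hz2 i hi]

theorem LO.totallyDisconnected (h : RegIdx ι) : TotallyDisconnectedSpace (LO ι) := by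
  have : TotallySeparatedSpace (LO ι) := by
    rw [totallySeparatedSpace_iff_exists_isClopen]
    intro x y hxy
    have : ∃ i, LO.val x i ≠ LO.val y i := by
      by_contra hno
      push Not at hno
      exact hxy (LO.val_injective (funext hno))
    obtain ⟨i, hi⟩ := this
    obtain ⟨a, ha⟩ := exists_gt' h i
    exact ⟨_, LO.isClopen_coset h x a, fun i _ => rfl, fun hy => hi (hy i ha).symm⟩
  infer_instance

theorem LO.not_separable (h : RegIdx ι) : ¬ TopologicalSpace.SeparableSpace (LO ι) := by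
  rintro ⟨C, hC, hdense⟩
  have hcount : (⋃ c ∈ C, {i | LO.val c i ≠ 0}).Countable :=
    hC.biUnion (fun c _ => supp_countable (LG.val_mem c))
  obtain ⟨b, hb⟩ := exists_bd_of_countable h _ hcount
  obtain ⟨a, ha⟩ := exists_gt' h b
  obtain ⟨e, he⟩ := LO.exists_ev b
  have hmem := hdense e
  rw [mem_closure_iff_nhds_basis (LO.basis h e)] at hmem
  obtain ⟨c, hc, hc2⟩ := hmem a trivial
  have h1 := hc2 b ha
  rw [he, ev_apply, if_pos rfl] at h1
  have h2 : b < b := hb b (by
    simp only [mem_iUnion]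
    exact ⟨c, hc, by
      show LO.val c b ≠ 0
      rw [h1]; exact one_ne_zero⟩)
  exact lt_irrefl _ h2

theorem LO.not_isGδ (h : RegIdx ι) (x : LO ι) : ¬ IsGδ ({x} : Set (LO ι)) := by
  intro hG
  obtain ⟨T, hTo, hTc, hT⟩ := hG
  have hx : ∀ t ∈ T, x ∈ t := by
    intro t ht
    have : x ∈ ⋂₀ T := by rw [← hT]; rfl
    exact this t ht
  have hch : ∀ t : Set (LO ι), ∃ a : ι, t ∈ T →
      ∀ y : LO ι, (∀ i < a, LO.val y i = LO.val x i) → y ∈ t := by
    intro t
    by_cases ht : t ∈ T
    · obtain ⟨a, _, ha⟩ := (LO.basis h x).mem_iff.1 ((hTo t ht).mem_nhds (hx t ht))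
      exact ⟨a, fun _ y hy => ha hy⟩
    · exact ⟨Classical.choice (nonempty_idx h), fun h2 => absurd h2 ht⟩
  choose f hf using hch
  obtain ⟨b, hb⟩ := exists_bd_of_countable h (f '' T) (hTc.image f)
  obtain ⟨e, he⟩ := LO.exists_ev b
  have hmem : x + e ∈ ⋂₀ T := by
    intro t ht
    refine hf t ht (x + e) (fun i hi => ?_)
    have hib : i < b := lt_trans hi (hb _ ⟨t, ht, rfl⟩)
    rw [map_add, Pi.add_apply, he, ev_apply, if_neg hib.ne, add_zero]
  rw [← hT, mem_singleton_iff, _root_.add_eq_left] at hmem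
  rw [hmem, map_zero] at he
  have := congrFun he b
  rw [ev_apply, if_pos rfl] at this
  exact absurd this (by norm_num)

theorem LO.no_suitable (h : RegIdx ι) (S : Set (LO ι)) : ¬ IsSuitable S := by
  have h1 : IsTopologicalAddGroup (LO ι) := inferInstance
  exact @Ladder.no_suitable ι _ _ h (inferInstanceAs (TopologicalSpace (LO ι))) h1
    (LO.basis_zero h) S

end Pool.Agent.Q148.Ladder
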