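import Mathlib

set_option autoImplicit false

namespace Pool.Agent.Q148.Ladder

/-- A *suitable set* of a topological group (written additively): a discrete subset `S` such that
`S ∪ {0}` is closed and the subgroup generated by `S` is dense. -/
def IsSuitable {G : Type} [AddGroup G] [TopologicalSpace G] (S : Set G) : Prop :=
  DiscreteTopology S ∧ IsClosed (S ∪ {0}) ∧ Dense (AddSubgroup.closure S : Set G)

/-- An `ω^ω`-base: each point has a neighbourhood base indexed monotonically by `ω^ω`. -/
def HasOmegaBase (X : Type) [TopologicalSpace X] : Prop :=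
  ∀ x : X, ∃ U : (ℕ → ℕ) → Set X, Antitone U ∧ (nhds x).HasBasis (fun _ => True) U

/-- The index set `ω₁`. -/
abbrev W1 : Type := (Cardinal.aleph 1).ord.ToType

end Pool.Agent.Q148.Ladder
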